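import Pool.Agent.Q35.GM.Bas

/-!
Project GM (helper35), job SPL: the lattice of the integral points of a plane is a sum of two ideals.
-/

set_option autoImplicit false
set_option linter.unusedSectionVars false

namespace Pool.Agent.Q262.GM

open NumberField Function
open Pool.Agent.Q35.GM
open scoped nonZeroDivisors

section

variable {K : Type} [Field K] [NumberField K]

/-- the content ideal of a vector -/
theorem exists_ct {ι : Type} [Fintype ι] (x : ι → K) (hx : x ≠ 0) :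
    ∃ C : FractionalIdeal (𝓞 K)⁰ K, C ≠ 0 ∧ (∀ a, x a ∈ C) ∧
      (∀ t ∈ C, ∃ r : ι → 𝓞 K, t = ∑ a, (r a : K) * x a) ∧
      Height.mulHeight x * ((FractionalIdeal.absNorm C : ℚ) : ℝ) =
        ∏ w : InfinitePlace K, (⨆ a, w (x a)) ^ w.mult := by
  classical
  obtain ⟨b, hb⟩ := IsLocalization.exist_integer_multiples_of_finite (𝓞 K)⁰ x
  choose y hy using hb
  have hb0 : ((b : 𝓞 K) : K) ≠ 0 := RingOfIntegers.coe_ne_zero_iff.2 (nonZeroDivisors.coe_ne_zero b)
  have hy' : ∀ i, (y i : K) = ((b : 𝓞 K) : K) * x i := by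
    intro i
    have := hy i
    rw [Algebra.smul_def] at this
    exact this
  have hyx : (fun i => (y i : K)) = ((b : 𝓞 K) : K) • x := by
    funext i
    exact hy' i
  obtain ⟨i₀, hi₀⟩ := Function.ne_iff.mp hx
  have hyi : (y i₀ : K) ≠ 0 := by
    rw [hy']
    exact mul_ne_zero hb0 hi₀
  have hyi' : y i₀ ≠ 0 := RingOfIntegers.coe_ne_zero_iff.1 hyi
  have hy0 : y ≠ 0 := Function.ne_iff.mpr ⟨i₀, hyi'⟩
  have hyK0 : (fun i => (y i : K)) ≠ 0 := Function.ne_iff.mpr ⟨i₀, hyi⟩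
  have hxi : ∀ i, x i = ((b : 𝓞 K) : K)⁻¹ * (y i : K) := by
    intro i
    rw [hy', inv_mul_cancel_left₀ hb0]
  have hN := absNorm_mul_finprod_finitePlace_eq_one hy0
  obtain ⟨A, hA⟩ : ∃ A : Ideal (𝓞 K), A = Ideal.span (Set.range y) := ⟨_, rfl⟩
  rw [← hA] at hN
  have hA0 : A ≠ ⊥ := by
    intro h
    rw [hA, Ideal.span_eq_bot] at h
    exact hyi' (h _ ⟨i₀, rfl⟩)
  refine ⟨FractionalIdeal.spanSingleton (𝓞 K)⁰ (((b : 𝓞 K) : K)⁻¹) *
    (A : FractionalIdeal (𝓞 K)⁰ K), ?_, ?_, ?_, ?_⟩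
  · refine mul_ne_zero ?_ (FractionalIdeal.coeIdeal_ne_zero.2 hA0)
    exact FractionalIdeal.spanSingleton_ne_zero_iff.2 (inv_ne_zero hb0)
  · intro a
    rw [FractionalIdeal.mem_singleton_mul]
    refine ⟨(y a : K), ?_, hxi a⟩
    rw [FractionalIdeal.mem_coeIdeal]
    exact ⟨y a, by rw [hA]; exact Ideal.subset_span ⟨a, rfl⟩, rfl⟩
  · intro t ht
    rw [FractionalIdeal.mem_singleton_mul] at ht
    obtain ⟨s, hs, rfl⟩ := ht
    rw [FractionalIdeal.mem_coeIdeal] at hs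
    obtain ⟨z, hz, rfl⟩ := hs
    rw [hA, Ideal.mem_span_range_iff_exists_fun] at hz
    obtain ⟨r, hr⟩ := hz
    refine ⟨r, ?_⟩
    rw [← hr, map_sum, Finset.mul_sum]
    refine Finset.sum_congr rfl fun a _ => ?_
    rw [map_mul, hxi a]
    ring
  · have h1 : Height.mulHeight x = Height.mulHeight (fun i => (y i : K)) := by
      rw [hyx, Height.mulHeight_smul_eq_mulHeight _ hb0]
    rw [h1, NumberField.mulHeight_eq hyK0, map_mul, FractionalIdeal.coeIdeal_absNorm,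
      FractionalIdeal.absNorm_span_singleton]
    have h2 : ∀ w : InfinitePlace K, (⨆ i, w (y i : K)) = w ((b : 𝓞 K) : K) * ⨆ i, w (x i) := by
      intro w
      rw [Real.mul_iSup_of_nonneg (apply_nonneg w _)]
      congr 1
      funext i
      rw [hy', map_mul]
    have h3 : ∏ w : InfinitePlace K, (⨆ i, w (y i : K)) ^ w.mult =
        ((|Algebra.norm ℚ ((b : 𝓞 K) : K)| : ℚ) : ℝ) * ∏ w : InfinitePlace K, (⨆ i, w (x i)) ^ w.mult := by
      rw [← InfinitePlace.prod_eq_abs_norm, ← Finset.prod_mul_distrib]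
      refine Finset.prod_congr rfl fun w _ => ?_
      rw [h2, mul_pow]
    have h4 : (Algebra.norm ℚ ((b : 𝓞 K) : K)) ≠ 0 := Algebra.norm_ne_zero_iff.2 hb0
    have h5 : ((|Algebra.norm ℚ ((b : 𝓞 K) : K)| : ℚ) : ℝ) ≠ 0 := by
      exact_mod_cast abs_ne_zero.2 h4
    have h6 : Algebra.norm ℚ (((b : 𝓞 K) : K)⁻¹) = (Algebra.norm ℚ ((b : 𝓞 K) : K))⁻¹ :=
      eq_inv_of_mul_eq_one_left (by rw [← map_mul, inv_mul_cancel₀ hb0, map_one])
    rw [h3, h6, abs_inv]
    push_cast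
    push_cast at h5
    calc _ = (|((Algebra.norm ℚ ((b : 𝓞 K) : K) : ℚ) : ℝ)| * |((Algebra.norm ℚ ((b : 𝓞 K) : K) : ℚ) : ℝ)|⁻¹) *
        ((A.absNorm : ℝ) * ∏ᶠ v : FinitePlace K, ⨆ i, v (y i : K)) *
        ∏ w : InfinitePlace K, (⨆ i, w (x i)) ^ w.mult := by ring
      _ = _ := by rw [hN, mul_inv_cancel₀ h5, one_mul, one_mul]

theorem mem_mul_ct {ι : Type} [Fintype ι] {x : ι → K} {C J : FractionalIdeal (𝓞 K)⁰ K}
    (hC : ∀ t ∈ C, ∃ r : ι → 𝓞 K, t = ∑ a, (r a : K) * x a) {t : K} (ht : t ∈ J * C) :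
    ∃ u : ι → K, (∀ a, u a ∈ J) ∧ t = ∑ a, u a * x a := by
  refine FractionalIdeal.mul_induction_on ht (fun i hi j hj => ?_) (fun s t hs ht => ?_)
  · obtain ⟨r, rfl⟩ := hC j hj
    refine ⟨fun a => (r a : K) * i, fun a => ?_, ?_⟩
    · have h1 : r a • i ∈ (J : Submodule (𝓞 K) K) := (J : Submodule (𝓞 K) K).smul_mem (r a) hi
      rw [Algebra.smul_def] at h1
      exact h1
    · rw [Finset.mul_sum]
      refine Finset.sum_congr rfl fun a _ => ?_
      ring
  · obtain ⟨u, hu, rfl⟩ := hs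
    obtain ⟨v, hv, rfl⟩ := ht
    refine ⟨fun a => u a + v a, fun a => ?_, ?_⟩
    · exact (J : Submodule (𝓞 K) K).add_mem (hu a) (hv a)
    · rw [← Finset.sum_add_distrib]
      refine Finset.sum_congr rfl fun a _ => ?_
      ring

theorem sum_mem' {ι : Type} [Fintype ι] (J : FractionalIdeal (𝓞 K)⁰ K) (f : ι → K)
    (h : ∀ a, f a ∈ J) : ∑ a, f a ∈ J :=
  (J : Submodule (𝓞 K) K).sum_mem fun a _ => h a

theorem sub_mem' {J : FractionalIdeal (𝓞 K)⁰ K} {s t : K} (hs : s ∈ J) (ht : t ∈ J) : s - t ∈ J :=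
  (J : Submodule (𝓞 K) K).sub_mem hs ht

theorem add_mem' {J : FractionalIdeal (𝓞 K)⁰ K} {s t : K} (hs : s ∈ J) (ht : t ∈ J) : s + t ∈ J :=
  (J : Submodule (𝓞 K) K).add_mem hs ht

/-- **Job GM-SPL.** -/
theorem spl : S_SPL := by
  intro K _ _ m I x y hI hxy
  classical
  have hx0 : x ≠ 0 := by
    rintro rfl
    exact hxy.ne_zero 0 rfl
  have hp0 : plu x y ≠ 0 := by
    intro h
    rw [linInd_iff] at hxy
    obtain ⟨i, hi⟩ := Function.ne_iff.mp hx0
    have h1 : (y i) • x + (-x i) • y = 0 := by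
      funext j
      have h2 := congrFun h (j, i)
      simp only [plu, Pi.zero_apply] at h2
      simp only [Pi.add_apply, Pi.smul_apply, smul_eq_mul, Pi.zero_apply]
      linear_combination h2
    exact hi (neg_eq_zero.1 (hxy _ _ h1).2)
  obtain ⟨Cx, hCx0, hxC, hCx, -⟩ := exists_ct x hx0
  obtain ⟨Cp, hCp0, hpC, hCp, hH⟩ := exists_ct (plu x y) hp0
  have hIF : (I : FractionalIdeal (𝓞 K)⁰ K) ≠ 0 := FractionalIdeal.coeIdeal_ne_zero.2 hI
  obtain ⟨u, hu, hu1⟩ := mem_mul_ct (J := Cx⁻¹) (t := 1) hCx (by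
    rw [inv_mul_cancel₀ hCx0]
    exact FractionalIdeal.one_mem_one _)
  obtain ⟨v, hv, hv1⟩ := mem_mul_ct (J := Cp⁻¹) (t := 1) hCp (by
    rw [inv_mul_cancel₀ hCp0]
    exact FractionalIdeal.one_mem_one _)
  obtain ⟨c, hc⟩ : ∃ c : K, c = ∑ a, u a * y a := ⟨_, rfl⟩
  have hkey : ∀ b, y b - c * x b = ∑ a, u a * plu x y (a, b) := by
    intro b
    have h1 : ∑ a, u a * plu x y (a, b) = (∑ a, u a * x a) * y b - (∑ a, u a * y a) * x b := by
      rw [Finset.sum_mul, Finset.sum_mul, ← Finset.sum_sub_distrib]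
      refine Finset.sum_congr rfl fun a _ => ?_
      simp only [plu]
      ring
    rw [h1, ← hu1, ← hc, one_mul]
  have hmI : ∀ t : K, (∃ z ∈ I, algebraMap (𝓞 K) K z = t) ↔ t ∈ (I : FractionalIdeal (𝓞 K)⁰ K) := by
    intro t
    rw [FractionalIdeal.mem_coeIdeal]
  have hbeta : ∀ β : K, β ∈ (I : FractionalIdeal (𝓞 K)⁰ K) * Cx * Cp⁻¹ → ∀ b,
      β * (y b - c * x b) ∈ (I : FractionalIdeal (𝓞 K)⁰ K) := by
    intro β hβ b
    rw [hkey, Finset.mul_sum]
    refine sum_mem' _ _ fun a => ?_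
    have h1 : β * plu x y (a, b) ∈ (I : FractionalIdeal (𝓞 K)⁰ K) * Cx * Cp⁻¹ * Cp :=
      FractionalIdeal.mul_mem_mul hβ (hpC _)
    have h2 := FractionalIdeal.mul_mem_mul (hu a) h1
    have h3 : Cx⁻¹ * ((I : FractionalIdeal (𝓞 K)⁰ K) * Cx * Cp⁻¹ * Cp) = I := by
      rw [mul_assoc ((I : FractionalIdeal (𝓞 K)⁰ K) * Cx), inv_mul_cancel₀ hCp0, mul_one, mul_comm,
        mul_assoc, mul_inv_cancel₀ hCx0, mul_one]
    rw [h3] at h2
    have h4 : β * (u a * plu x y (a, b)) = u a * (β * plu x y (a, b)) := by ring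
    rw [h4]
    exact h2
  refine ⟨c, (I : FractionalIdeal (𝓞 K)⁰ K) * Cx⁻¹, (I : FractionalIdeal (𝓞 K)⁰ K) * Cx * Cp⁻¹,
    mul_ne_zero hIF (inv_ne_zero hCx0), mul_ne_zero (mul_ne_zero hIF hCx0) (inv_ne_zero hCp0),
    fun α β => ⟨fun h => ?_, ?_⟩, ?_⟩
  · have hz : ∀ b, α * x b + β * (y b - c * x b) ∈ (I : FractionalIdeal (𝓞 K)⁰ K) :=
      fun b => (hmI _).1 (h b)
    have h1 : ∀ q : Fin m × Fin m, β * plu x y q ∈ (I : FractionalIdeal (𝓞 K)⁰ K) * Cx := by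
      rintro ⟨a, b⟩
      have h2 : β * plu x y (a, b) = (α * x b + β * (y b - c * x b)) * x a -
          (α * x a + β * (y a - c * x a)) * x b := by
        simp only [plu]
        ring
      rw [h2]
      exact sub_mem' (FractionalIdeal.mul_mem_mul (hz b) (hxC a))
        (FractionalIdeal.mul_mem_mul (hz a) (hxC b))
    have hβ : β ∈ (I : FractionalIdeal (𝓞 K)⁰ K) * Cx * Cp⁻¹ := by
      have h2 : β = ∑ q, (β * plu x y q) * v q := by
        calc β = β * 1 := (mul_one β).symm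
          _ = β * ∑ q, v q * plu x y q := by rw [← hv1]
          _ = _ := by
            rw [Finset.mul_sum]
            refine Finset.sum_congr rfl fun q _ => ?_
            ring
      rw [h2]
      exact sum_mem' _ _ fun q => FractionalIdeal.mul_mem_mul (h1 q) (hv q)
    refine ⟨?_, hβ⟩
    have h3 : ∀ b, α * x b ∈ (I : FractionalIdeal (𝓞 K)⁰ K) := by
      intro b
      have h4 := sub_mem' (hz b) (hbeta β hβ b)
      rw [add_sub_cancel_right] at h4
      exact h4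
    have h5 : α = ∑ b, (α * x b) * u b := by
      calc α = α * 1 := (mul_one α).symm
        _ = α * ∑ b, u b * x b := by rw [← hu1]
        _ = _ := by
          rw [Finset.mul_sum]
          refine Finset.sum_congr rfl fun q _ => ?_
          ring
    rw [h5]
    exact sum_mem' _ _ fun b => FractionalIdeal.mul_mem_mul (h3 b) (hu b)
  · rintro ⟨hα, hβ⟩ a
    rw [hmI]
    refine add_mem' ?_ (hbeta β hβ a)
    have h1 := FractionalIdeal.mul_mem_mul hα (hxC a)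
    rw [mul_assoc, inv_mul_cancel₀ hCx0, mul_one] at h1
    exact h1
  · have hCx1 : ((FractionalIdeal.absNorm Cx : ℚ) : ℝ) ≠ 0 := by
      have h1 : (FractionalIdeal.absNorm Cx : ℚ) ≠ 0 := by
        rw [Ne, FractionalIdeal.absNorm_eq_zero_iff]
        exact hCx0
      exact_mod_cast h1
    have hCp1 : ((FractionalIdeal.absNorm Cp : ℚ) : ℝ) ≠ 0 := by
      have h1 : (FractionalIdeal.absNorm Cp : ℚ) ≠ 0 := by
        rw [Ne, FractionalIdeal.absNorm_eq_zero_iff]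
        exact hCp0
      exact_mod_cast h1
    have h2 : (∏ w : InfinitePlace K, nvp w x y ^ w.mult) =
        Height.mulHeight (plu x y) * ((FractionalIdeal.absNorm Cp : ℚ) : ℝ) := hH.symm
    rw [h2, map_mul, map_mul, map_mul, map_inv₀, map_inv₀, FractionalIdeal.coeIdeal_absNorm]
    push_cast
    field_simp

end

end Pool.Agent.Q262.GM
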