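import Pool.Agent.Q35.GM.Bas

/-!
Project GM (helper35), job VF: the volumes of planar sections.
-/

set_option autoImplicit false
set_option linter.unusedSectionVars false

namespace Pool.Agent.Q262.GM.V

open MeasureTheory Module NumberField
open scoped ENNReal Topology Pointwise
open Pool.Agent.Q35.GM (plu)

section norms

variable {k : Type} [NormedField k] {ι : Type} [Finite ι]

/-- the maximum norm -/
noncomputable def N (u : ι → k) : ℝ := ⨆ a, ‖u a‖

theorem le_N (u : ι → k) (a : ι) : ‖u a‖ ≤ N u :=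
  le_ciSup (f := fun a => ‖u a‖) (Set.finite_range _).bddAbove a

theorem N_nonneg (u : ι → k) : 0 ≤ N u := Real.iSup_nonneg fun _ => norm_nonneg _

theorem N_le {u : ι → k} {c : ℝ} (h : ∀ a, ‖u a‖ ≤ c) (hc : 0 ≤ c) : N u ≤ c := Real.iSup_le h hc

theorem N_pos {u : ι → k} (h : u ≠ 0) : 0 < N u := by
  obtain ⟨a, ha⟩ := Function.ne_iff.1 h
  exact (norm_pos_iff.2 ha).trans_le (le_N u a)

theorem exists_N {u : ι → k} (h : u ≠ 0) : ∃ a, ‖u a‖ = N u := by
  obtain ⟨a, ha⟩ := Function.ne_iff.1 h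
  have : Nonempty ι := ⟨a⟩
  exact exists_eq_ciSup_of_finite

end norms

section gen

variable {k : Type} [NormedField k]

/-- the planar section -/
def D {m : ℕ} (u v : Fin m → k) (τ : ℝ) : Set (Fin 2 → k) :=
  {z | ∀ a, ‖z 0 * u a + z 1 * v a‖ ≤ τ}

theorem key {m : ℕ} {u v : Fin m → k} {z : Fin 2 → k} {τ : ℝ} (hτ : 0 ≤ τ) (hz : z ∈ D u v τ)
    (q : Fin m × Fin m) :
    ‖z 0‖ * ‖plu u v q‖ ≤ 2 * τ * N v ∧ ‖z 1‖ * ‖plu u v q‖ ≤ 2 * τ * N u := by
  obtain ⟨a, b⟩ := q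
  constructor
  · have e1 : z 0 * plu u v (a, b) = (z 0 * u a + z 1 * v a) * v b - (z 0 * u b + z 1 * v b) * v a := by
      simp only [plu]
      ring
    rw [← norm_mul, e1]
    calc _ ≤ ‖(z 0 * u a + z 1 * v a) * v b‖ + ‖(z 0 * u b + z 1 * v b) * v a‖ := norm_sub_le _ _
      _ = ‖z 0 * u a + z 1 * v a‖ * ‖v b‖ + ‖z 0 * u b + z 1 * v b‖ * ‖v a‖ := by
          rw [norm_mul, norm_mul]
      _ ≤ τ * N v + τ * N v := add_le_add
          (mul_le_mul (hz a) (le_N v b) (norm_nonneg _) hτ)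
          (mul_le_mul (hz b) (le_N v a) (norm_nonneg _) hτ)
      _ = _ := by ring
  · have e1 : z 1 * plu u v (a, b) = (z 0 * u b + z 1 * v b) * u a - (z 0 * u a + z 1 * v a) * u b := by
      simp only [plu]
      ring
    rw [← norm_mul, e1]
    calc _ ≤ ‖(z 0 * u b + z 1 * v b) * u a‖ + ‖(z 0 * u a + z 1 * v a) * u b‖ := norm_sub_le _ _
      _ = ‖z 0 * u b + z 1 * v b‖ * ‖u a‖ + ‖z 0 * u a + z 1 * v a‖ * ‖u b‖ := by
          rw [norm_mul, norm_mul]
      _ ≤ τ * N u + τ * N u := add_le_add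
          (mul_le_mul (hz b) (le_N u a) (norm_nonneg _) hτ)
          (mul_le_mul (hz a) (le_N u b) (norm_nonneg _) hτ)
      _ = _ := by ring

theorem D_mono {m : ℕ} {u v : Fin m → k} {τ τ' : ℝ} (h : τ ≤ τ') : D u v τ ⊆ D u v τ' :=
  fun _ hz a => (hz a).trans h

theorem plu_N_le {m : ℕ} (u v : Fin m → k) : N (plu u v) ≤ 2 * (N u * N v) := by
  refine N_le (fun q => ?_) (by have := N_nonneg u; have := N_nonneg v; positivity)
  calc ‖plu u v q‖ ≤ ‖u q.1 * v q.2‖ + ‖u q.2 * v q.1‖ := norm_sub_le _ _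
    _ = ‖u q.1‖ * ‖v q.2‖ + ‖u q.2‖ * ‖v q.1‖ := by rw [norm_mul, norm_mul]
    _ ≤ N u * N v + N u * N v := add_le_add
        (mul_le_mul (le_N u _) (le_N v _) (norm_nonneg _) (N_nonneg u))
        (mul_le_mul (le_N u _) (le_N v _) (norm_nonneg _) (N_nonneg u))
    _ = _ := by ring

variable [NormedAlgebra ℝ k]

theorem D_smul {m : ℕ} {u v : Fin m → k} (h : plu u v ≠ 0) {τ : ℝ} (hτ : 0 ≤ τ) :
    D u v τ = τ • D u v 1 := by
  have h0 : ∀ τ : ℝ, 0 ≤ τ → (0 : Fin 2 → k) ∈ D u v τ := by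
    intro τ hτ a
    simp only [Pi.zero_apply, zero_mul, add_zero, norm_zero]
    exact hτ
  rcases hτ.eq_or_lt with rfl | hτ
  · rw [Set.zero_smul_set ⟨0, h0 1 zero_le_one⟩]
    ext z
    constructor
    · intro hz
      obtain ⟨q, hq⟩ := Function.ne_iff.1 h
      have hq' : 0 < ‖plu u v q‖ := norm_pos_iff.2 hq
      obtain ⟨h1, h2⟩ := key le_rfl hz q
      have h3 : z = 0 := by
        have h4 : ‖z 0‖ ≤ 0 := by
          by_contra h5
          have := mul_pos (not_le.1 h5) hq'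
          linarith
        have h5 : ‖z 1‖ ≤ 0 := by
          by_contra h5
          have := mul_pos (not_le.1 h5) hq'
          linarith
        funext i
        fin_cases i
        · exact norm_le_zero_iff.1 h4
        · exact norm_le_zero_iff.1 h5
      rw [h3]
      exact Set.zero_mem_zero
    · intro hz
      have h3 : z = 0 := hz
      rw [h3]
      exact h0 0 le_rfl
  · ext z
    rw [Set.mem_smul_set_iff_inv_smul_mem₀ hτ.ne']
    have e : ∀ a, ‖(τ⁻¹ • z) 0 * u a + (τ⁻¹ • z) 1 * v a‖ = τ⁻¹ * ‖z 0 * u a + z 1 * v a‖ := by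
      intro a
      rw [Pi.smul_apply, Pi.smul_apply, smul_mul_assoc, smul_mul_assoc, ← smul_add, norm_smul,
        Real.norm_of_nonneg (inv_nonneg.2 hτ.le)]
    constructor
    · intro hz a
      rw [e, inv_mul_le_iff₀ hτ, mul_one]
      exact hz a
    · intro hz a
      have h1 := hz a
      rw [e, inv_mul_le_iff₀ hτ, mul_one] at h1
      exact h1

variable [FiniteDimensional ℝ k] [MeasurableSpace k] [BorelSpace k] [SecondCountableTopology k]
variable (μ : Measure (Fin 2 → k)) [μ.IsAddHaarMeasure] {e : ℕ}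

theorem pre (hn : ∀ z : k, |Algebra.norm ℝ z| = ‖z‖ ^ e) {M : Matrix (Fin 2) (Fin 2) k}
    (hM : M.det ≠ 0) (s : Set (Fin 2 → k)) :
    μ ((fun z => M.mulVec z) ⁻¹' s) = ENNReal.ofReal ((‖M.det‖ ^ e)⁻¹) * μ s := by
  have h1 : LinearMap.det ((Matrix.toLin' M).restrictScalars ℝ) = Algebra.norm ℝ M.det := by
    rw [LinearMap.det_restrictScalars, LinearMap.det_toLin']
  have h2 : LinearMap.det ((Matrix.toLin' M).restrictScalars ℝ) ≠ 0 := by
    rw [h1]
    exact Algebra.norm_ne_zero_iff.2 hM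
  have h3 := Measure.addHaar_preimage_linearMap μ h2 s
  rw [h1, abs_inv, hn] at h3
  exact h3

/-- the matrix of two coordinates -/
def mt {m : ℕ} (u v : Fin m → k) (q : Fin m × Fin m) : Matrix (Fin 2) (Fin 2) k :=
  !![u q.1, v q.1; u q.2, v q.2]

omit [NormedAlgebra ℝ k] [FiniteDimensional ℝ k] [MeasurableSpace k] [BorelSpace k]
  [SecondCountableTopology k] in
theorem mt_det {m : ℕ} (u v : Fin m → k) (q : Fin m × Fin m) : (mt u v q).det = plu u v q := by
  rw [mt, Matrix.det_fin_two_of, plu]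
  ring

omit [NormedAlgebra ℝ k] [FiniteDimensional ℝ k] [MeasurableSpace k] [BorelSpace k]
  [SecondCountableTopology k] in
theorem mt_mulVec {m : ℕ} (u v : Fin m → k) (q : Fin m × Fin m) (z : Fin 2 → k) :
    (mt u v q).mulVec z = ![z 0 * u q.1 + z 1 * v q.1, z 0 * u q.2 + z 1 * v q.2] := by
  funext i
  fin_cases i
  · simp [mt, Matrix.mulVec, dotProduct, Fin.sum_univ_two, mul_comm]
  · simp [mt, Matrix.mulVec, dotProduct, Fin.sum_univ_two, mul_comm]

omit [NormedAlgebra ℝ k] [FiniteDimensional ℝ k] [MeasurableSpace k] [BorelSpace k]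
  [SecondCountableTopology k] in
theorem D_sub {m : ℕ} (u v : Fin m → k) (q : Fin m × Fin m) :
    D u v 1 ⊆ (fun z => (mt u v q).mulVec z) ⁻¹' Metric.closedBall 0 1 := by
  intro z hz
  rw [Set.mem_preimage, mem_closedBall_zero_iff, mt_mulVec, pi_norm_le_iff_of_nonneg zero_le_one]
  intro i
  fin_cases i
  · exact hz q.1
  · exact hz q.2

omit [NormedAlgebra ℝ k] [FiniteDimensional ℝ k] [MeasurableSpace k] [BorelSpace k]
  [SecondCountableTopology k] in
theorem sub_D {m : ℕ} {u v : Fin m → k} (h : plu u v ≠ 0) {q : Fin m × Fin m}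
    (hq : ‖plu u v q‖ = N (plu u v)) :
    (fun z => (mt u v q).mulVec z) ⁻¹' Metric.closedBall 0 (1 / 2) ⊆ D u v 1 := by
  obtain ⟨a, b⟩ := q
  have hp : 0 < N (plu u v) := N_pos h
  intro z hz
  rw [Set.mem_preimage, mem_closedBall_zero_iff, mt_mulVec,
    pi_norm_le_iff_of_nonneg (by norm_num)] at hz
  have hs : ‖z 0 * u a + z 1 * v a‖ ≤ 1 / 2 := hz 0
  have ht : ‖z 0 * u b + z 1 * v b‖ ≤ 1 / 2 := hz 1
  intro c
  have e1 : plu u v (a, b) * (z 0 * u c + z 1 * v c) =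
      (z 0 * u a + z 1 * v a) * plu u v (c, b) + (z 0 * u b + z 1 * v b) * plu u v (a, c) := by
    simp only [plu]
    ring
  have h1 : N (plu u v) * ‖z 0 * u c + z 1 * v c‖ ≤ N (plu u v) * 1 := by
    rw [← hq, ← norm_mul, e1, hq]
    calc _ ≤ ‖(z 0 * u a + z 1 * v a) * plu u v (c, b)‖ + ‖(z 0 * u b + z 1 * v b) * plu u v (a, c)‖ :=
          norm_add_le _ _
      _ = ‖z 0 * u a + z 1 * v a‖ * ‖plu u v (c, b)‖ + ‖z 0 * u b + z 1 * v b‖ * ‖plu u v (a, c)‖ := by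
          rw [norm_mul, norm_mul]
      _ ≤ 1 / 2 * N (plu u v) + 1 / 2 * N (plu u v) := add_le_add
          (mul_le_mul hs (le_N _ _) (norm_nonneg _) (by norm_num))
          (mul_le_mul ht (le_N _ _) (norm_nonneg _) (by norm_num))
      _ = _ := by ring
  exact le_of_mul_le_mul_left h1 hp

theorem D_lt_top (hn : ∀ z : k, |Algebra.norm ℝ z| = ‖z‖ ^ e) {m : ℕ} {u v : Fin m → k}
    (h : plu u v ≠ 0) {τ : ℝ} (hτ : 0 ≤ τ) : μ (D u v τ) < ⊤ := by
  obtain ⟨q, hq⟩ := exists_N h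
  have h1 : μ (D u v 1) < ⊤ := by
    refine (measure_mono (D_sub u v q)).trans_lt ?_
    rw [pre μ hn]
    · exact ENNReal.mul_lt_top ENNReal.ofReal_lt_top measure_closedBall_lt_top
    · rw [mt_det, ← norm_ne_zero_iff, hq]
      exact (N_pos h).ne'
  rw [D_smul h hτ, Measure.addHaar_smul]
  exact ENNReal.mul_lt_top ENNReal.ofReal_lt_top h1

/-- the volume -/
noncomputable def W {m : ℕ} (u v : Fin m → k) (τ : ℝ) : ℝ := (μ (D u v τ)).toReal

theorem W_smul (he : finrank ℝ k = e) {m : ℕ} {u v : Fin m → k} (h : plu u v ≠ 0) {τ : ℝ}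
    (hτ : 0 ≤ τ) : W μ u v τ = τ ^ (2 * e) * W μ u v 1 := by
  unfold W
  rw [D_smul h hτ, Measure.addHaar_smul, ENNReal.toReal_mul, ENNReal.toReal_ofReal (abs_nonneg _),
    abs_of_nonneg (pow_nonneg hτ _)]
  congr 2
  rw [Module.finrank_pi_fintype]
  simp [he]

theorem W_nonneg {m : ℕ} (u v : Fin m → k) (τ : ℝ) : 0 ≤ W μ u v τ := ENNReal.toReal_nonneg

/-- the local factor -/
noncomputable def G (e : ℕ) {m : ℕ} (u v : Fin m → k) : ℝ := N (plu u v) ^ e * W μ u v 1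

theorem G_nonneg {m : ℕ} (u v : Fin m → k) : 0 ≤ G μ e u v :=
  mul_nonneg (pow_nonneg (N_nonneg _) _) (W_nonneg μ _ _ _)

theorem G_le (hn : ∀ z : k, |Algebra.norm ℝ z| = ‖z‖ ^ e) {m : ℕ} {u v : Fin m → k}
    (h : plu u v ≠ 0) : G μ e u v ≤ (μ (Metric.closedBall 0 1)).toReal := by
  obtain ⟨q, hq⟩ := exists_N h
  have hp : 0 < N (plu u v) := N_pos h
  have h1 : W μ u v 1 ≤ (N (plu u v) ^ e)⁻¹ * (μ (Metric.closedBall 0 1)).toReal := by
    have h2 := measure_mono (μ := μ) (D_sub u v q)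
    rw [pre μ hn (by
      rw [mt_det, ← norm_ne_zero_iff, hq]
      exact hp.ne'), mt_det, hq] at h2
    have h3 := ENNReal.toReal_mono
      (ENNReal.mul_lt_top ENNReal.ofReal_lt_top measure_closedBall_lt_top).ne h2
    rwa [ENNReal.toReal_mul, ENNReal.toReal_ofReal (by positivity)] at h3
  unfold G
  calc _ ≤ N (plu u v) ^ e * ((N (plu u v) ^ e)⁻¹ * (μ (Metric.closedBall 0 1)).toReal) :=
        mul_le_mul_of_nonneg_left h1 (pow_nonneg hp.le _)
    _ = _ := by rw [mul_inv_cancel_left₀ (pow_pos hp _).ne']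

theorem le_G (hn : ∀ z : k, |Algebra.norm ℝ z| = ‖z‖ ^ e) {m : ℕ} {u v : Fin m → k}
    (h : plu u v ≠ 0) : (μ (Metric.closedBall 0 (1 / 2))).toReal ≤ G μ e u v := by
  obtain ⟨q, hq⟩ := exists_N h
  have hp : 0 < N (plu u v) := N_pos h
  have h1 : (N (plu u v) ^ e)⁻¹ * (μ (Metric.closedBall 0 (1 / 2))).toReal ≤ W μ u v 1 := by
    have h2 := measure_mono (μ := μ) (sub_D h hq)
    rw [pre μ hn (by
      rw [mt_det, ← norm_ne_zero_iff, hq]
      exact hp.ne'), mt_det, hq] at h2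
    have h3 := ENNReal.toReal_mono (D_lt_top μ hn h zero_le_one).ne h2
    rwa [ENNReal.toReal_mul, ENNReal.toReal_ofReal (by positivity)] at h3
  unfold G
  calc (μ (Metric.closedBall 0 (1 / 2))).toReal =
      N (plu u v) ^ e * ((N (plu u v) ^ e)⁻¹ * (μ (Metric.closedBall 0 (1 / 2))).toReal) := by
        rw [mul_inv_cancel_left₀ (pow_pos hp _).ne']
    _ ≤ _ := mul_le_mul_of_nonneg_left h1 (pow_nonneg hp.le _)

theorem G_change (hn : ∀ z : k, |Algebra.norm ℝ z| = ‖z‖ ^ e) {m : ℕ} (u v : Fin m → k)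
    {a b c d : k} (h : a * d - b * c ≠ 0) :
    G μ e (a • u + b • v) (c • u + d • v) = G μ e u v := by
  have h1 : D (a • u + b • v) (c • u + d • v) 1 =
      (fun z => (!![a, c; b, d] : Matrix (Fin 2) (Fin 2) k).mulVec z) ⁻¹' D u v 1 := by
    ext z
    have e1 : ∀ i, z 0 * (a • u + b • v) i + z 1 * (c • u + d • v) i =
        ((!![a, c; b, d] : Matrix (Fin 2) (Fin 2) k).mulVec z) 0 * u i +
          ((!![a, c; b, d] : Matrix (Fin 2) (Fin 2) k).mulVec z) 1 * v i := by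
      intro i
      simp only [Pi.add_apply, Pi.smul_apply, smul_eq_mul, Matrix.mulVec, dotProduct,
        Fin.sum_univ_two, Matrix.of_apply, Matrix.cons_val_zero, Matrix.cons_val_one,
        Matrix.cons_val', Matrix.cons_val_fin_one]
      ring
    constructor
    · intro hz i
      rw [← e1]
      exact hz i
    · intro hz i
      rw [e1]
      exact hz i
  have h2 : (!![a, c; b, d] : Matrix (Fin 2) (Fin 2) k).det = a * d - b * c := by
    rw [Matrix.det_fin_two_of]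
    ring
  have hd : 0 < ‖a * d - b * c‖ := norm_pos_iff.2 h
  have h3 : N (plu (a • u + b • v) (c • u + d • v)) = ‖a * d - b * c‖ * N (plu u v) := by
    rw [Pool.Agent.Q35.GM.plu_comb]
    unfold N
    rw [Real.mul_iSup_of_nonneg (norm_nonneg _)]
    congr 1
    funext q
    rw [Pi.smul_apply, smul_eq_mul, norm_mul]
  unfold G W
  rw [h1, pre μ hn (by rw [h2]; exact h), h2, h3, ENNReal.toReal_mul,
    ENNReal.toReal_ofReal (by positivity), mul_pow]
  have h4 : ‖a * d - b * c‖ ^ e ≠ 0 := (pow_pos hd _).ne'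
  field_simp

omit [NormedAlgebra ℝ k] [FiniteDimensional ℝ k] [MeasurableSpace k] [BorelSpace k]
  [SecondCountableTopology k] in
/-- comparison of two nearby planes -/
theorem near {m : ℕ} {u v u' v' : Fin m → k} {c δ : ℝ} (hc : 0 < c) (hδ : 0 < δ) (hδ1 : δ ≤ 1)
    (h : plu u v ≠ 0) (hcp : c * (N u * N v) ≤ N (plu u v)) (hu : N (u - u') ≤ δ * N u)
    (hv : N (v - v') ≤ δ * N v) :
    N (plu u' v') ≤ (1 + 6 * δ / c) * N (plu u v) ∧
    (1 - 6 * δ / c) * N (plu u v) ≤ N (plu u' v') ∧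
    (∀ τ : ℝ, 0 ≤ τ → D u v τ ⊆ D u' v' ((1 + 4 * δ / c) * τ)) ∧
    (4 * δ / c < 1 → D u' v' 1 ⊆ D u v (1 - 4 * δ / c)⁻¹) := by
  have hp : 0 < N (plu u v) := N_pos h
  have huv : 0 < N u * N v := by
    have := plu_N_le u v
    by_contra h1
    linarith
  have hu0 : 0 < N u := by
    rcases (N_nonneg u).eq_or_lt with h1 | h1
    · rw [← h1, zero_mul] at huv
      exact absurd huv (lt_irrefl _)
    · exact h1
  have hv0 : 0 < N v := by
    rcases (N_nonneg v).eq_or_lt with h1 | h1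
    · rw [← h1, mul_zero] at huv
      exact absurd huv (lt_irrefl _)
    · exact h1
  have hua : ∀ a, ‖u a - u' a‖ ≤ δ * N u := fun a => (le_N (u - u') a).trans hu
  have hva : ∀ a, ‖v a - v' a‖ ≤ δ * N v := fun a => (le_N (v - v') a).trans hv
  have hva' : ∀ a, ‖v' a‖ ≤ 2 * N v := by
    intro a
    have h1 : ‖v' a‖ ≤ ‖v a‖ + ‖v a - v' a‖ := by
      have : v' a = v a - (v a - v' a) := by ring
      rw [this]
      simpa using norm_sub_le (v a) (v a - v' a)
    have h2 := le_N v a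
    have h3 := hva a
    nlinarith
  have hpair : ∀ a b, ‖u a * v b - u' a * v' b‖ ≤ 3 * δ * (N u * N v) := by
    intro a b
    have e1 : u a * v b - u' a * v' b = (u a - u' a) * v' b + u a * (v b - v' b) := by ring
    rw [e1]
    calc _ ≤ ‖(u a - u' a) * v' b‖ + ‖u a * (v b - v' b)‖ := norm_add_le _ _
      _ = ‖u a - u' a‖ * ‖v' b‖ + ‖u a‖ * ‖v b - v' b‖ := by rw [norm_mul, norm_mul]
      _ ≤ (δ * N u) * (2 * N v) + N u * (δ * N v) := add_le_add
          (mul_le_mul (hua a) (hva' b) (norm_nonneg _) (by positivity))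
          (mul_le_mul (le_N u a) (hva b) (norm_nonneg _) hu0.le)
      _ = _ := by ring
  have hplu : ∀ q, ‖plu u v q - plu u' v' q‖ ≤ 6 * δ / c * N (plu u v) := by
    intro q
    have e1 : plu u v q - plu u' v' q = (u q.1 * v q.2 - u' q.1 * v' q.2) -
        (u q.2 * v q.1 - u' q.2 * v' q.1) := by
      simp only [plu]
      ring
    rw [e1]
    calc _ ≤ ‖u q.1 * v q.2 - u' q.1 * v' q.2‖ + ‖u q.2 * v q.1 - u' q.2 * v' q.1‖ := norm_sub_le _ _
      _ ≤ 3 * δ * (N u * N v) + 3 * δ * (N u * N v) := add_le_add (hpair _ _) (hpair _ _)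
      _ = 6 * δ / c * (c * (N u * N v)) := by field_simp; ring
      _ ≤ _ := mul_le_mul_of_nonneg_left hcp (by positivity)
  have hz : ∀ (z : Fin 2 → k) (τ : ℝ), 0 ≤ τ → z ∈ D u v τ → ∀ a,
      ‖z 0 * (u a - u' a) + z 1 * (v a - v' a)‖ ≤ 4 * δ / c * τ := by
    intro z τ hτ hzD a
    obtain ⟨q, hq⟩ := exists_N h
    obtain ⟨h1, h2⟩ := key hτ hzD q
    rw [hq] at h1 h2
    have h3 : ‖z 0‖ * N u ≤ 2 / c * τ := by
      have h4 : ‖z 0‖ * (c * (N u * N v)) ≤ 2 * τ * N v :=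
        (mul_le_mul_of_nonneg_left hcp (norm_nonneg _)).trans h1
      have h5 : (‖z 0‖ * N u * c) * N v ≤ (2 * τ) * N v := by linarith
      have h6 := le_of_mul_le_mul_right h5 hv0
      rw [div_mul_eq_mul_div, le_div_iff₀ hc]
      exact h6
    have h4 : ‖z 1‖ * N v ≤ 2 / c * τ := by
      have h4 : ‖z 1‖ * (c * (N u * N v)) ≤ 2 * τ * N u :=
        (mul_le_mul_of_nonneg_left hcp (norm_nonneg _)).trans h2
      have h5 : (‖z 1‖ * N v * c) * N u ≤ (2 * τ) * N u := by linarith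
      have h6 := le_of_mul_le_mul_right h5 hu0
      rw [div_mul_eq_mul_div, le_div_iff₀ hc]
      exact h6
    calc _ ≤ ‖z 0 * (u a - u' a)‖ + ‖z 1 * (v a - v' a)‖ := norm_add_le _ _
      _ = ‖z 0‖ * ‖u a - u' a‖ + ‖z 1‖ * ‖v a - v' a‖ := by rw [norm_mul, norm_mul]
      _ ≤ ‖z 0‖ * (δ * N u) + ‖z 1‖ * (δ * N v) := add_le_add
          (mul_le_mul_of_nonneg_left (hua a) (norm_nonneg _))
          (mul_le_mul_of_nonneg_left (hva a) (norm_nonneg _))
      _ = δ * (‖z 0‖ * N u) + δ * (‖z 1‖ * N v) := by ring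
      _ ≤ δ * (2 / c * τ) + δ * (2 / c * τ) := add_le_add
          (mul_le_mul_of_nonneg_left h3 hδ.le) (mul_le_mul_of_nonneg_left h4 hδ.le)
      _ = _ := by ring
  have hθ : 0 ≤ 6 * δ / c := by positivity
  refine ⟨?_, ?_, ?_, ?_⟩
  · refine N_le (fun q => ?_) (by positivity)
    have e1 : plu u' v' q = plu u v q - (plu u v q - plu u' v' q) := by ring
    rw [e1]
    calc _ ≤ ‖plu u v q‖ + ‖plu u v q - plu u' v' q‖ := norm_sub_le _ _
      _ ≤ N (plu u v) + 6 * δ / c * N (plu u v) := add_le_add (le_N _ _) (hplu q)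
      _ = _ := by ring
  · obtain ⟨q, hq⟩ := exists_N h
    have h1 : ‖plu u v q‖ ≤ ‖plu u' v' q‖ + ‖plu u v q - plu u' v' q‖ := by
      have e1 : plu u v q = plu u' v' q + (plu u v q - plu u' v' q) := by ring
      calc ‖plu u v q‖ = ‖plu u' v' q + (plu u v q - plu u' v' q)‖ := by rw [← e1]
        _ ≤ _ := norm_add_le _ _
    have h2 := hplu q
    have h3 := le_N (plu u' v') q
    rw [hq] at h1
    linarith
  · intro τ hτ z hzD a
    have e1 : z 0 * u' a + z 1 * v' a = (z 0 * u a + z 1 * v a) -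
        (z 0 * (u a - u' a) + z 1 * (v a - v' a)) := by ring
    rw [e1]
    calc _ ≤ ‖z 0 * u a + z 1 * v a‖ + ‖z 0 * (u a - u' a) + z 1 * (v a - v' a)‖ := norm_sub_le _ _
      _ ≤ τ + 4 * δ / c * τ := add_le_add (hzD a) (hz z τ hτ hzD a)
      _ = _ := by ring
  · intro hη z hzD
    obtain ⟨τ, hτ⟩ : ∃ τ : ℝ, τ = N (fun a => z 0 * u a + z 1 * v a) := ⟨_, rfl⟩
    have hτ0 : 0 ≤ τ := by rw [hτ]; exact N_nonneg _
    have hzτ : z ∈ D u v τ := by
      intro a
      rw [hτ]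
      exact le_N (fun a => z 0 * u a + z 1 * v a) a
    have h1 : τ ≤ 1 + 4 * δ / c * τ := by
      have h2 : N (fun a => z 0 * u a + z 1 * v a) ≤ 1 + 4 * δ / c * τ := by
        refine N_le (fun a => ?_) (by positivity)
        have e1 : z 0 * u a + z 1 * v a = (z 0 * u' a + z 1 * v' a) +
            (z 0 * (u a - u' a) + z 1 * (v a - v' a)) := by ring
        rw [e1]
        exact (norm_add_le _ _).trans (add_le_add (hzD a) (hz z τ hτ0 hzτ a))
      rwa [← hτ] at h2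
    have h2 : τ ≤ (1 - 4 * δ / c)⁻¹ := by
      have h3 : 0 < 1 - 4 * δ / c := by linarith
      rw [← one_div, le_div_iff₀ h3]
      have h4 : τ * (1 - 4 * δ / c) = τ - 4 * δ / c * τ := by ring
      linarith
    exact D_mono h2 hzτ

theorem W_mono (hn : ∀ z : k, |Algebra.norm ℝ z| = ‖z‖ ^ e) {m : ℕ} {u v u' v' : Fin m → k}
    (h : plu u' v' ≠ 0) {τ τ' : ℝ} (hτ : 0 ≤ τ') (hD : D u v τ ⊆ D u' v' τ') :
    W μ u v τ ≤ W μ u' v' τ' :=
  ENNReal.toReal_mono (D_lt_top μ hn h hτ).ne (measure_mono hD)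

theorem exists_C (hn : ∀ z : k, |Algebra.norm ℝ z| = ‖z‖ ^ e) : ∃ C : ℝ, 1 ≤ C ∧
    ∀ (m : ℕ) (u v : Fin m → k), plu u v ≠ 0 → 1 / C ≤ G μ e u v ∧ G μ e u v ≤ C := by
  have hb1 : 0 < (μ (Metric.closedBall 0 (1 / 2))).toReal :=
    ENNReal.toReal_pos (Metric.measure_closedBall_pos μ 0 (by norm_num)).ne'
      measure_closedBall_lt_top.ne
  obtain ⟨C, hC⟩ : ∃ C : ℝ, C = max 1 (max (μ (Metric.closedBall 0 1)).toReal
    (1 / (μ (Metric.closedBall 0 (1 / 2))).toReal)) := ⟨_, rfl⟩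
  have h1 : 1 ≤ C := by rw [hC]; exact le_max_left _ _
  have h2 : (μ (Metric.closedBall 0 1)).toReal ≤ C := by
    rw [hC]
    exact (le_max_left _ _).trans (le_max_right _ _)
  have h3 : 1 / (μ (Metric.closedBall 0 (1 / 2))).toReal ≤ C := by
    rw [hC]
    exact (le_max_right _ _).trans (le_max_right _ _)
  refine ⟨C, h1, fun m u v h => ⟨?_, (G_le μ hn h).trans h2⟩⟩
  refine le_trans ?_ (le_G μ hn h)
  rw [div_le_iff₀ (by linarith)]
  rw [div_le_iff₀ hb1] at h3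
  linarith

theorem G_cont (hn : ∀ z : k, |Algebra.norm ℝ z| = ‖z‖ ^ e) (he : finrank ℝ k = e) {c ε : ℝ}
    (hc : 0 < c) (hε : 0 < ε) : ∃ δ : ℝ, 0 < δ ∧ ∀ (m : ℕ) (u v u' v' : Fin m → k),
      plu u v ≠ 0 → plu u' v' ≠ 0 → c * (N u * N v) ≤ N (plu u v) → N (u - u') ≤ δ * N u →
      N (v - v') ≤ δ * N v → |G μ e u v - G μ e u' v'| ≤ ε := by
  obtain ⟨B, hB⟩ : ∃ B : ℝ, B = (μ (Metric.closedBall 0 1)).toReal := ⟨_, rfl⟩
  have hB0 : 0 ≤ B := by rw [hB]; exact ENNReal.toReal_nonneg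
  obtain ⟨f1, hf1⟩ : ∃ f : ℝ → ℝ, f = fun δ => (1 + 6 * δ / c) ^ e * ((1 - 4 * δ / c)⁻¹) ^ (2 * e) :=
    ⟨_, rfl⟩
  obtain ⟨f2, hf2⟩ : ∃ f : ℝ → ℝ, f = fun δ => (1 - 6 * δ / c) ^ e * ((1 + 4 * δ / c)⁻¹) ^ (2 * e) :=
    ⟨_, rfl⟩
  have hc1 : ContinuousAt f1 0 := by
    rw [hf1]
    refine ContinuousAt.mul (by fun_prop) (ContinuousAt.pow (ContinuousAt.inv₀ (by fun_prop) ?_) _)
    norm_num
  have hc2 : ContinuousAt f2 0 := by
    rw [hf2]
    refine ContinuousAt.mul (by fun_prop) (ContinuousAt.pow (ContinuousAt.inv₀ (by fun_prop) ?_) _)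
    norm_num
  have h10 : f1 0 = 1 := by rw [hf1]; simp
  have h20 : f2 0 = 1 := by rw [hf2]; simp
  have hη : 0 < ε / (B + 1) := by positivity
  have e1 : ∀ᶠ δ in 𝓝[>] (0 : ℝ), f1 δ < 1 + ε / (B + 1) :=
    (hc1.tendsto.mono_left nhdsWithin_le_nhds).eventually (gt_mem_nhds (by rw [h10]; linarith))
  have e2 : ∀ᶠ δ in 𝓝[>] (0 : ℝ), 1 - ε / (B + 1) < f2 δ :=
    (hc2.tendsto.mono_left nhdsWithin_le_nhds).eventually (lt_mem_nhds (by rw [h20]; linarith))
  have e3 : ∀ᶠ δ in 𝓝[>] (0 : ℝ), δ < min 1 (c / 6) :=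
    (Filter.tendsto_id.mono_left nhdsWithin_le_nhds).eventually (gt_mem_nhds (by positivity))
  obtain ⟨δ, h1, h2, h3, h4⟩ := (e1.and (e2.and (e3.and self_mem_nhdsWithin))).exists
  have hδ0 : 0 < δ := h4
  have hδ1 : δ ≤ 1 := h3.le.trans (min_le_left _ _)
  have hδc : δ < c / 6 := h3.trans_le (min_le_right _ _)
  have h6 : 6 * δ / c < 1 := by
    rw [div_lt_one hc]
    linarith
  have h5 : 4 * δ / c < 1 := by
    rw [div_lt_one hc]
    linarith
  refine ⟨δ, hδ0, fun m u v u' v' hp hp' hcp hu hv => ?_⟩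
  obtain ⟨n1, n2, n3, n4⟩ := near hc hδ0 hδ1 hp hcp hu hv
  have n4 := n4 h5
  have hP : 0 ≤ N (plu u v) := N_nonneg _
  have hP' : 0 ≤ N (plu u' v') := N_nonneg _
  have hW : 0 ≤ W μ u v 1 := W_nonneg _ _ _ _
  have hW' : 0 ≤ W μ u' v' 1 := W_nonneg _ _ _ _
  have hη4 : 0 < 1 + 4 * δ / c := by positivity
  have hη5 : 0 < 1 - 4 * δ / c := by linarith
  have hG : 0 ≤ G μ e u v := G_nonneg _ _ _
  have hGB : G μ e u v ≤ B := by rw [hB]; exact G_le μ hn hp
  have w1 : W μ u' v' 1 ≤ ((1 - 4 * δ / c)⁻¹) ^ (2 * e) * W μ u v 1 := by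
    rw [← W_smul μ he hp (inv_nonneg.2 hη5.le)]
    exact W_mono μ hn hp (inv_nonneg.2 hη5.le) n4
  have w2 : ((1 + 4 * δ / c)⁻¹) ^ (2 * e) * W μ u v 1 ≤ W μ u' v' 1 := by
    rw [← W_smul μ he hp (inv_nonneg.2 hη4.le)]
    refine W_mono μ hn hp' zero_le_one ?_
    have h7 := n3 ((1 + 4 * δ / c)⁻¹) (inv_nonneg.2 hη4.le)
    rwa [mul_inv_cancel₀ hη4.ne'] at h7
  have g1 : G μ e u' v' ≤ f1 δ * G μ e u v := by
    have e4 : f1 δ * G μ e u v = ((1 + 6 * δ / c) * N (plu u v)) ^ e *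
        (((1 - 4 * δ / c)⁻¹) ^ (2 * e) * W μ u v 1) := by
      rw [hf1, G, mul_pow]
      ring
    rw [e4, G]
    exact mul_le_mul (pow_le_pow_left₀ hP' n1 e) w1 hW' (by positivity)
  have g2 : f2 δ * G μ e u v ≤ G μ e u' v' := by
    have e4 : f2 δ * G μ e u v = ((1 - 6 * δ / c) * N (plu u v)) ^ e *
        (((1 + 4 * δ / c)⁻¹) ^ (2 * e) * W μ u v 1) := by
      rw [hf2, G, mul_pow]
      ring
    rw [e4, G]
    refine mul_le_mul (pow_le_pow_left₀ ?_ n2 e) w2 (by positivity) (by positivity)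
    have : 0 < 1 - 6 * δ / c := by linarith
    positivity
  have hfin : ε / (B + 1) * G μ e u v ≤ ε := by
    calc ε / (B + 1) * G μ e u v ≤ ε / (B + 1) * (B + 1) :=
          mul_le_mul_of_nonneg_left (by linarith) hη.le
      _ = ε := by field_simp
  rw [abs_le]
  constructor
  · have h8 : f1 δ * G μ e u v ≤ (1 + ε / (B + 1)) * G μ e u v :=
      mul_le_mul_of_nonneg_right h1.le hG
    linarith
  · have h8 : (1 - ε / (B + 1)) * G μ e u v ≤ f2 δ * G μ e u v :=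
      mul_le_mul_of_nonneg_right h2.le hG
    linarith

end gen

section places

open Pool.Agent.Q35.GM
open Pool.Agent.Q35.EOW (nv)

variable {K : Type} [Field K] [NumberField K]

theorem nv_eq {k : Type} [NormedField k] (w : InfinitePlace K) (φ : K →+* k)
    (hφ : ∀ t, ‖φ t‖ = w t) {m : ℕ} (x : Fin m → K) : nv w x = N (fun a => φ (x a)) := by
  unfold nv N
  congr 1
  funext a
  rw [hφ]

theorem plu_map {k : Type} [NormedField k] (φ : K →+* k) {m : ℕ} (x y : Fin m → K) :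
    plu (fun a => φ (x a)) (fun a => φ (y a)) = fun q => φ (plu x y q) := by
  funext q
  simp only [plu, map_sub, map_mul]

theorem nvp_eq {k : Type} [NormedField k] (w : InfinitePlace K) (φ : K →+* k)
    (hφ : ∀ t, ‖φ t‖ = w t) {m : ℕ} (x y : Fin m → K) :
    nvp w x y = N (plu (fun a => φ (x a)) (fun a => φ (y a))) := by
  rw [plu_map]
  unfold nvp N
  congr 1
  funext q
  rw [hφ]

theorem plu_ne {m : ℕ} {x y : Fin m → K} (hxy : LinearIndependent K ![x, y]) : plu x y ≠ 0 := by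
  have hx0 : x ≠ 0 := by
    rintro rfl
    exact hxy.ne_zero 0 rfl
  intro h
  rw [linInd_iff] at hxy
  obtain ⟨i, hi⟩ := Function.ne_iff.mp hx0
  have h1 : (y i) • x + (-x i) • y = 0 := by
    funext j
    have h2 := congrFun h (j, i)
    simp only [plu, Pi.zero_apply] at h2
    simp only [Pi.add_apply, Pi.smul_apply, smul_eq_mul, Pi.zero_apply]
    linear_combination h2
  exact hi (neg_eq_zero.1 (hxy _ _ h1).2)

theorem plu_map_ne {k : Type} [NormedField k] (φ : K →+* k) {m : ℕ} {x y : Fin m → K}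
    (hxy : LinearIndependent K ![x, y]) :
    plu (fun a => φ (x a)) (fun a => φ (y a)) ≠ 0 := by
  rw [plu_map]
  obtain ⟨q, hq⟩ := Function.ne_iff.1 (plu_ne hxy)
  refine Function.ne_iff.2 ⟨q, fun h => hq ?_⟩
  exact (map_eq_zero φ).1 h

theorem hnR : ∀ z : ℝ, |Algebra.norm ℝ z| = ‖z‖ ^ 1 := by
  intro z
  rw [Algebra.norm_self, pow_one]
  rfl

theorem hnC : ∀ z : ℂ, |Algebra.norm ℝ z| = ‖z‖ ^ 2 := by
  intro z
  rw [Algebra.norm_complex_apply, Complex.normSq_eq_norm_sq, abs_of_nonneg (by positivity)]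

/-- what is proved for one place -/
def Fct (w : InfinitePlace K) (k : Type) [NormedField k] [MeasureSpace k] (e : ℕ) : Prop :=
  ∃ φ : K →+* k, (∀ t, ‖φ t‖ = w t) ∧ w.mult = e ∧
    ∀ (m : ℕ) (x y : Fin m → K) (τ : ℝ),
      volw w x y τ = W (volume : Measure (Fin 2 → k)) (fun a => φ (x a)) (fun a => φ (y a)) τ

theorem fct_real (w : InfinitePlace K) (hw : w.IsReal) : Fct w ℝ 1 := by
  refine ⟨InfinitePlace.embedding_of_isReal hw, InfinitePlace.norm_embedding_of_isReal hw, ?_, ?_⟩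
  · simp [InfinitePlace.mult, hw]
  · intro m x y τ
    unfold volw
    rw [if_pos hw]
    have h1 : ∀ t : K, (w.embedding t).re = InfinitePlace.embedding_of_isReal hw t := by
      intro t
      rw [← InfinitePlace.embedding_of_isReal_apply hw, Complex.ofReal_re]
    simp only [h1]
    rfl

theorem fct_complex (w : InfinitePlace K) (hw : ¬ w.IsReal) : Fct w ℂ 2 := by
  refine ⟨w.embedding, InfinitePlace.norm_embedding_eq w, ?_, ?_⟩
  · simp [InfinitePlace.mult, hw]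
  · intro m x y τ
    unfold volw
    rw [if_neg hw]
    rfl

/-- the assembly for one of the two fields -/
theorem asm {k : Type} [NormedField k] [NormedAlgebra ℝ k] [FiniteDimensional ℝ k]
    [MeasureSpace k] [BorelSpace k] [SecondCountableTopology k]
    [(volume : Measure (Fin 2 → k)).IsAddHaarMeasure] {e : ℕ}
    (hn : ∀ z : k, |Algebra.norm ℝ z| = ‖z‖ ^ e) (he : finrank ℝ k = e) (m : ℕ) :
    ∃ C : ℝ, 1 ≤ C ∧
    (∀ (w : InfinitePlace K), Fct w k e → ∀ (x y : Fin m → K), LinearIndependent K ![x, y] →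
      1 / C ≤ FV w x y ∧ FV w x y ≤ C ∧
      (∀ τ : ℝ, 0 ≤ τ → volw w x y τ = τ ^ (2 * w.mult) * volw w x y 1) ∧
      ∀ a b c d : K, a * d - b * c ≠ 0 → FV w (a • x + b • y) (c • x + d • y) = FV w x y) ∧
    ∀ (w : InfinitePlace K), Fct w k e → ∀ (c ε : ℝ), 0 < c → 0 < ε → ∃ δ : ℝ, 0 < δ ∧
      ∀ x y x' y' : Fin m → K, LinearIndependent K ![x, y] → LinearIndependent K ![x', y'] →
        c * (nv w x * nv w y) ≤ nvp w x y → nv w (x - x') ≤ δ * nv w x →
        nv w (y - y') ≤ δ * nv w y → |FV w x y - FV w x' y'| ≤ ε := by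
  obtain ⟨C, hC1, hC⟩ := exists_C (volume : Measure (Fin 2 → k)) hn
  refine ⟨C, hC1, fun w hw x y hxy => ?_, fun w hw c ε hc hε => ?_⟩
  · obtain ⟨φ, hφ, hm, hv⟩ := hw
    have hF : ∀ x y : Fin m → K, FV w x y =
        G (volume : Measure (Fin 2 → k)) e (fun a => φ (x a)) (fun a => φ (y a)) := by
      intro x y
      unfold FV
      rw [nvp_eq w φ hφ, hm, hv]
      rfl
    have hp := plu_map_ne φ hxy
    obtain ⟨h1, h2⟩ := hC m _ _ hp
    refine ⟨by rw [hF]; exact h1, by rw [hF]; exact h2, fun τ hτ => ?_, fun a b c d h => ?_⟩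
    · rw [hv, hv, hm]
      exact W_smul _ he hp hτ
    · rw [hF, hF]
      have h3 : (fun i => φ ((a • x + b • y) i)) =
          φ a • (fun i => φ (x i)) + φ b • (fun i => φ (y i)) := by
        funext i
        simp only [Pi.add_apply, Pi.smul_apply, smul_eq_mul, map_add, map_mul]
      have h4 : (fun i => φ ((c • x + d • y) i)) =
          φ c • (fun i => φ (x i)) + φ d • (fun i => φ (y i)) := by
        funext i
        simp only [Pi.add_apply, Pi.smul_apply, smul_eq_mul, map_add, map_mul]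
      rw [h3, h4]
      refine G_change _ hn _ _ ?_
      rw [← map_mul, ← map_mul, ← map_sub]
      exact (map_ne_zero φ).2 h
  · obtain ⟨φ, hφ, hm, hv⟩ := hw
    have hF : ∀ x y : Fin m → K, FV w x y =
        G (volume : Measure (Fin 2 → k)) e (fun a => φ (x a)) (fun a => φ (y a)) := by
      intro x y
      unfold FV
      rw [nvp_eq w φ hφ, hm, hv]
      rfl
    obtain ⟨δ, hδ, h⟩ := G_cont (volume : Measure (Fin 2 → k)) hn he hc hε
    refine ⟨δ, hδ, fun x y x' y' hxy hxy' h1 h2 h3 => ?_⟩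
    rw [hF, hF]
    have e1 : ∀ x x' : Fin m → K, (fun a => φ (x a)) - (fun a => φ (x' a)) =
        fun a => φ ((x - x') a) := by
      intro x x'
      funext a
      simp only [Pi.sub_apply, map_sub]
    refine h m _ _ _ _ (plu_map_ne φ hxy) (plu_map_ne φ hxy') ?_ ?_ ?_
    · rw [← nv_eq w φ hφ, ← nv_eq w φ hφ, ← nvp_eq w φ hφ]
      exact h1
    · rw [e1, ← nv_eq w φ hφ, ← nv_eq w φ hφ]
      exact h2
    · rw [e1, ← nv_eq w φ hφ, ← nv_eq w φ hφ]
      exact h3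

end places

end Pool.Agent.Q262.GM.V

namespace Pool.Agent.Q262.GM

open NumberField Pool.Agent.Q35.GM

/-- **Job GM-VF.** -/
theorem vf : S_VF := by
  intro K _ _ m
  obtain ⟨C1, h1, h2, h3⟩ := V.asm (K := K) (k := ℝ) V.hnR (Module.finrank_self ℝ) m
  obtain ⟨C2, h4, h5, h6⟩ := V.asm (K := K) (k := ℂ) V.hnC Complex.finrank_real_complex m
  refine ⟨max C1 C2, h1.trans (le_max_left _ _), fun w x y hxy => ?_, fun w c ε hc hε => ?_⟩
  · by_cases hw : w.IsReal
    · obtain ⟨a1, a2, a3⟩ := h2 w (V.fct_real w hw) x y hxy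
      refine ⟨le_trans ?_ a1, a2.trans (le_max_left _ _), a3⟩
      exact one_div_le_one_div_of_le (by linarith) (le_max_left _ _)
    · obtain ⟨a1, a2, a3⟩ := h5 w (V.fct_complex w hw) x y hxy
      refine ⟨le_trans ?_ a1, a2.trans (le_max_right _ _), a3⟩
      exact one_div_le_one_div_of_le (by linarith) (le_max_right _ _)
  · by_cases hw : w.IsReal
    · exact h3 w (V.fct_real w hw) c ε hc hε
    · exact h6 w (V.fct_complex w hw) c ε hc hε

end Pool.Agent.Q262.GM
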